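import Mathlib

/-!
# Locally edge-critical graphs with `γ = 3` and `i ≥ 4` have diameter 2

`H` is the non-adjacency of distinct vertices.
-/

set_option autoImplicit false

namespace Pool.Agent.X266.SBL

section

variable {V : Type} {H : V → V → Prop}

/-- `u v` is a non-edge and no vertex is adjacent to both. -/
def Ex (H : V → V → Prop) (u v : V) : Prop := H u v ∧ ∀ w, w = u ∨ w = v ∨ H w u ∨ H w v

/-- The pair `{p, x}` dominates everything but `q`. -/
def Cr (H : V → V → Prop) (p q : V) : Prop := ∃ x, ∀ w, H w p → H w x → w = q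

variable (hs : ∀ p q, H p q → H q p) (hi : ∀ p, ¬ H p p) (F1 : ∀ a b, ∃ x, H x a ∧ H x b)
  (F2 : ∀ a b c, H a b → H a c → H b c → ∃ x, H x a ∧ H x b ∧ H x c)
  (F3 : ∀ p q, H p q → Ex H p q ∨ Cr H p q ∨ Cr H q p)

include hs in
theorem ex_symm {u v : V} (h : Ex H u v) : Ex H v u :=
  ⟨hs _ _ h.1, fun w => by rcases h.2 w with h1 | h1 | h1 | h1 <;> tauto⟩

include hs hi F1 F2 in
theorem cr_not {p q x : V} (hx : ∀ w, H w p → H w x → w = q) : ¬ H x p := by
  intro hxp
  obtain ⟨y, h1, h2⟩ := F1 p x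
  have hy := hx y h1 h2
  subst hy
  obtain ⟨z, h3, h4, h5⟩ := F2 y p x h1 h2 (hs _ _ hxp)
  have hz := hx z h4 h5
  subst hz
  exact hi _ h3

include hs hi F3 in
/-- Two adjacent (for `H`) common neighbours of an exempt pair form an exempt pair. -/
theorem ex_inner {u v w z : V} (h : Ex H u v) (hwu : H w u) (hwv : H w v) (hzu : H z u)
    (hzv : H z v) (hwz : H w z) : Ex H w z := by
  have key : ∀ p q : V, H p u → H p v → H q u → H q v → ¬ Cr H p q := by
    rintro p q hpu hpv hqu hqv ⟨x, hx⟩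
    have hqu' : u ≠ q := fun e => hi q (by rw [e] at hqu; exact hqu)
    have hqv' : v ≠ q := fun e => hi q (by rw [e] at hqv; exact hqv)
    rcases h.2 x with rfl | rfl | h1 | h1
    · exact hqv' (hx v (hs _ _ hpv) (hs _ _ h.1))
    · exact hqu' (hx u (hs _ _ hpu) h.1)
    · exact hqu' (hx u (hs _ _ hpu) (hs _ _ h1))
    · exact hqv' (hx v (hs _ _ hpv) (hs _ _ h1))
  rcases F3 w z hwz with h1 | h1 | h1
  · exact h1
  · exact absurd h1 (key w z hwu hwv hzu hzv)
  · exact absurd h1 (key z w hzu hzv hwu hwv)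

include hs hi F1 F2 F3 in
theorem ex_side {u v w : V} (h : Ex H u v) (hwu : H w u) (hwv : H w v) : Ex H u w := by
  obtain ⟨z, hzu, hzv, hzw⟩ := F2 u v w h.1 (hs _ _ hwu) (hs _ _ hwv)
  have hwz : H w z := hs _ _ hzw
  have hE := ex_inner hs hi F3 h hwu hwv hzu hzv hwz
  have n1 : v ≠ w := fun e => hi w (by rw [e] at hwv; exact hwv)
  have n2 : z ≠ w := fun e => hi w (by rw [e] at hzw; exact hzw)
  have n3 : z ≠ u := fun e => hi u (by rw [e] at hzu; exact hzu)
  have n4 : v ≠ u := fun e => hi u (by have := h.1; rw [e] at this; exact this)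
  rcases F3 u w (hs _ _ hwu) with h1 | h1 | h1
  · exact h1
  · exfalso
    obtain ⟨x, hx⟩ := h1
    rcases h.2 x with rfl | rfl | h2 | h2
    · exact n1 (hx v (hs _ _ h.1) (hs _ _ h.1))
    · exact n2 (hx z hzu hzv)
    · exact cr_not hs hi F1 F2 hx h2
    · exact n1 (hx v (hs _ _ h.1) (hs _ _ h2))
  · exfalso
    obtain ⟨x, hx⟩ := h1
    rcases hE.2 x with rfl | rfl | h2 | h2
    · exact n3 (hx z hzw hzw)
    · exact n4 (hx v (hs _ _ hwv) (hs _ _ hzv))
    · exact cr_not hs hi F1 F2 hx h2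
    · exact n3 (hx z hzw (hs _ _ h2))

include hs hi F1 F2 F3 in
theorem ex_all {u v a : V} (h : Ex H u v) (ha : H a u) : Ex H u a := by
  by_cases hav : a = v
  · rw [hav]; exact h
  by_cases hHav : H a v
  · exact ex_side hs hi F1 F2 F3 h ha hHav
  obtain ⟨w, hwu, hwv⟩ := F1 u v
  have h1 := ex_side hs hi F1 F2 F3 (ex_symm hs h) hwv hwu
  have haw : H a w := by
    rcases h1.2 a with h2 | h2 | h2 | h2
    · exact absurd h2 hav
    · rw [h2] at hHav; exact absurd hwv hHav
    · exact absurd h2 hHav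
    · exact h2
  exact ex_side hs hi F1 F2 F3 (ex_side hs hi F1 F2 F3 h hwu hwv) ha haw

include hs hi F1 F2 F3 in
/-- One exempt pair makes every pair exempt. -/
theorem ex_everywhere {u v : V} (h : Ex H u v) (p q : V) (hpq : H p q) : Ex H p q := by
  have hp : ∃ y, Ex H p y := by
    obtain ⟨y, hyu, hyp⟩ := F1 u p
    exact ⟨y, ex_symm hs (ex_all hs hi F1 F2 F3 (ex_symm hs
      (ex_all hs hi F1 F2 F3 h hyu)) (hs _ _ hyp))⟩
  obtain ⟨y, hy⟩ := hp
  exact ex_all hs hi F1 F2 F3 hy (hs _ _ hpq)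

end

end Pool.Agent.X266.SBL
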